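import Pool.Agent.N403.RS.LowB

/-!
# Counting the points (for RS/LOW)
-/

set_option autoImplicit false
set_option linter.unusedSectionVars false
set_option linter.unusedVariables false

namespace Pool.Agent.N403.RS

open NumberField IsDedekindDomain Finset Filter Topology Pool.Agent.H691R3 Pool.Agent.W223.AK Pool.Agent.N906.RS

variable {K : Type} [Field K] [NumberField K]

open Classical in
/-- the primes of `D` -/
noncomputable def TT (D : Fin 3 → Idl K) : Finset (Pr K) := Finset.univ.biUnion fun l => (D l).support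

theorem sum_TT {D : Fin 3 → Idl K} (hD : PC D) (f : Pr K → ℝ) :
    ∑ v ∈ TT D, f v = ∑ l, ∑ v ∈ (D l).support, f v := by
  classical
  unfold TT
  rw [Finset.sum_biUnion]
  intro l _ l' _ hl
  rw [Function.onFun, Finset.disjoint_left]
  intro v hv hv'
  rcases hD l l' hl v with h | h
  · exact (Finsupp.mem_support_iff.mp hv) h
  · exact (Finsupp.mem_support_iff.mp hv') h

theorem mem_TT {D : Fin 3 → Idl K} {v : Pr K} : v ∈ TT D ↔ ∃ l, D l v ≠ 0 := by
  classical
  unfold TT
  simp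

open Classical in
/-- the weights of the primes -/
noncomputable def yw (T : Finset (Pr K)) (v : Pr K) : ℝ := if v ∈ T then (Nv v)⁻¹ else ((Nv v) ^ 2)⁻¹

theorem yw_nonneg (T : Finset (Pr K)) (v : Pr K) : 0 ≤ yw T v := by
  have := Nv_pos v
  unfold yw
  split_ifs <;> positivity

theorem yw_le (T : Finset (Pr K)) (v : Pr K) : yw T v ≤ 1 / 2 := by
  have := two_le_Nv v
  unfold yw
  split_ifs
  · rw [inv_le_comm₀ (by positivity) (by norm_num)]
    linarith
  · rw [inv_le_comm₀ (by positivity) (by norm_num)]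
    nlinarith

open Classical in
theorem log_yw (T : Finset (Pr K)) (v : Pr K) :
    Real.log (yw T v) = -2 * Real.log (Nv v) + if v ∈ T then Real.log (Nv v) else 0 := by
  unfold yw
  split_ifs
  · rw [Real.log_inv]; ring
  · rw [Real.log_inv, Real.log_pow]; push_cast; ring

theorem yw_pos (T : Finset (Pr K)) (v : Pr K) : 0 < yw T v := by
  have := Nv_pos v
  unfold yw
  split_ifs <;> positivity

theorem prod_yw (T s : Finset (Pr K)) (hT : T ⊆ s) (g : Idl K) (hg : g.support ⊆ s) :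
    ∏ v ∈ s, yw T v ^ g v = Real.exp (-2 * len g + ∑ v ∈ T, (g v : ℝ) * Real.log (Nv v)) := by
  classical
  have h1 : ∀ v ∈ s, yw T v ^ g v = Real.exp ((g v : ℝ) * Real.log (yw T v)) := by
    intro v _
    rw [Real.exp_nat_mul, Real.exp_log (yw_pos T v)]
  rw [Finset.prod_congr rfl h1, ← Real.exp_sum, len_eq_sum hg]
  congr 1
  have h2 : ∑ v ∈ T, (g v : ℝ) * Real.log (Nv v) =
      ∑ v ∈ s, if v ∈ T then (g v : ℝ) * Real.log (Nv v) else 0 := by
    rw [← Finset.sum_filter, Finset.filter_mem_eq_inter, Finset.inter_eq_right.2 hT]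
  rw [h2, Finset.mul_sum, ← Finset.sum_add_distrib]
  refine Finset.sum_congr rfl fun v _ => ?_
  rw [log_yw]
  split_ifs <;> ring

theorem tl_sub {D : Fin 3 → Idl K} (hD : PC D) (g : Idl K) :
    tl D - tl (fun l => D l - g) ≤ ∑ v ∈ TT D, (g v : ℝ) * Real.log (Nv v) := by
  classical
  rw [sum_TT hD]
  unfold tl
  rw [← Finset.sum_sub_distrib]
  refine Finset.sum_le_sum fun l _ => ?_
  have hs : (D l - g).support ⊆ (D l).support := by
    intro v hv
    rw [Finsupp.mem_support_iff, Finsupp.tsub_apply] at hv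
    rw [Finsupp.mem_support_iff]
    omega
  rw [len_eq_sum hs, len, ← Finset.sum_sub_distrib]
  refine Finset.sum_le_sum fun v _ => ?_
  rw [← sub_mul]
  refine mul_le_mul_of_nonneg_right ?_ (log_Nv_pos v).le
  rw [Finsupp.tsub_apply]
  have : (D l v : ℝ) ≤ ((D l v - g v : ℕ) : ℝ) + g v := by
    have h : D l v ≤ (D l v - g v) + g v := by omega
    exact_mod_cast h
  linarith

/-- the sum of the weights of the bad divisors -/
theorem sum_bad {D : Fin 3 → Idl K} (hD : PC D) {CN η Z : ℝ} (hCN : 0 ≤ CN)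
    (hN : ∀ s : Finset (Pr K), ∑ v ∈ s, ((Nv v) ^ 2)⁻¹ ≤ CN) (hr : rsum D ≤ 1)
    (htail : ∀ G : Finset (Idl K), (∀ g ∈ G, Z < len g) → ∑ g ∈ G, Real.exp (-2 * len g) ≤ η)
    (G : Finset (Idl K)) (hG : ∀ g ∈ G, ¬ ((∀ v ∈ TT D, g v = 0) ∧ len g ≤ Z)) :
    ∑ g ∈ G, Real.exp (-2 * len g + ∑ v ∈ TT D, (g v : ℝ) * Real.log (Nv v)) ≤
      rsum D * Real.exp (2 + 2 * CN) + η := by
  classical
  set T := TT D with hT
  set s := T ∪ G.biUnion fun g => g.support with hs
  have hTs : T ⊆ s := Finset.subset_union_left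
  have hGs : ∀ g ∈ G, g.support ⊆ s := fun g hg =>
    (Finset.subset_biUnion_of_mem (fun g : Idl K => g.support) hg).trans Finset.subset_union_right
  have hrs : ∑ v ∈ T, yw T v = rsum D := by
    rw [hT, sum_TT hD]
    unfold rsum
    refine Finset.sum_congr rfl fun l _ => Finset.sum_congr rfl fun v hv => ?_
    unfold yw
    rw [if_pos (mem_TT.2 ⟨l, Finsupp.mem_support_iff.1 hv⟩)]
  have hys : ∑ v ∈ s, yw T v ≤ rsum D + CN := by
    rw [← hrs]
    have h1 : ∀ v ∈ s, yw T v ≤ (if v ∈ T then yw T v else 0) + ((Nv v) ^ 2)⁻¹ := by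
      intro v _
      have := Nv_pos v
      split_ifs with h
      · have : 0 ≤ ((Nv v) ^ 2)⁻¹ := by positivity
        linarith
      · unfold yw
        rw [if_neg h, zero_add]
    refine (Finset.sum_le_sum h1).trans ?_
    rw [Finset.sum_add_distrib, ← Finset.sum_filter, Finset.filter_mem_eq_inter,
      Finset.inter_eq_right.2 hTs]
    have := hN s
    linarith
  rw [← Finset.sum_filter_add_sum_filter_not G (fun g => ∃ v ∈ T, g v ≠ 0)]
  refine add_le_add ?_ ?_
  · have h1 : ∀ g ∈ G.filter (fun g => ∃ v ∈ T, g v ≠ 0),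
        Real.exp (-2 * len g + ∑ v ∈ T, (g v : ℝ) * Real.log (Nv v)) = ∏ v ∈ s, yw T v ^ g v := by
      intro g hg
      rw [prod_yw T s hTs g (hGs g (Finset.mem_filter.1 hg).1)]
    rw [Finset.sum_congr rfl h1]
    refine (euler_div (yw T) (yw_nonneg T) (yw_le T) s T hTs _
      (fun g hg => hGs g (Finset.mem_filter.1 hg).1) (fun g hg => (Finset.mem_filter.1 hg).2)).trans ?_
    rw [hrs]
    have hr0 : 0 ≤ rsum D := by
      rw [← hrs]
      exact Finset.sum_nonneg fun v _ => yw_nonneg T v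
    refine mul_le_mul_of_nonneg_left (Real.exp_le_exp.2 ?_) hr0
    linarith
  · have h1 : ∀ g ∈ G.filter (fun g => ¬ ∃ v ∈ T, g v ≠ 0),
        Real.exp (-2 * len g + ∑ v ∈ T, (g v : ℝ) * Real.log (Nv v)) = Real.exp (-2 * len g) := by
      intro g hg
      have h2 := (Finset.mem_filter.1 hg).2
      push Not at h2
      have h3 : ∑ v ∈ T, (g v : ℝ) * Real.log (Nv v) = 0 :=
        Finset.sum_eq_zero fun v hv => by rw [h2 v hv]; simp
      rw [h3, add_zero]
    rw [Finset.sum_congr rfl h1]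
    refine htail _ fun g hg => ?_
    have h2 := (Finset.mem_filter.1 hg).2
    push Not at h2
    by_contra h3
    exact hG g (Finset.mem_filter.1 hg).1 ⟨h2, not_lt.1 h3⟩

theorem core (h1 : S_CELL K) (h3 : S_CNT K) (c₀ : ℝ) (hc₀ : 0 < c₀) :
    ∃ c₁ c C : ℝ, 0 < c₁ ∧ 0 < c ∧ 0 < C ∧ ∀ (X : ℝ) (D : Fin 3 → Idl K), 0 ≤ X → PC D →
      rsum D ≤ c₁ → ∀ (Q : Finset (K × K)) (oo : K × K → Fin 3 → Idl K),
      (∀ q ∈ Q, Pair (Real.exp (X / Module.finrank ℚ K)) q.1 q.2 (oo q) ∧ ∀ l, D l ≤ oo q l) →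
      c₀ * Real.exp (2 * X - tl D) ≤ Q.card → ∃ F : Finset K,
      (∀ x ∈ F, Pt x ∧ ht x ≤ X ∧ ∃ P : Fin 3 → Idl K, IsP ∅ x P ∧ ∀ l, D l ≤ P l) ∧
      c * Real.exp (2 * X - tl D) - C * Real.exp X ≤ F.card := by
  classical
  obtain ⟨CI, hCI, hI⟩ := cnt_idl K
  obtain ⟨CN, hCN, -, hN⟩ := id h3
  obtain ⟨Cc, hCc, hcell⟩ := h1
  have hN' : ∀ s : Finset (Pr K), ∑ v ∈ s, ((Nv v) ^ 2)⁻¹ ≤ CN := by
    intro s
    have := hN 1 s le_rfl fun v _ => Nv_one_lt v
    simpa using this
  set W : ℕ := (BU K).ncard with hW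
  have hW1 : 1 ≤ W := by
    rw [hW, Nat.one_le_iff_ne_zero, Ne, Set.ncard_eq_zero (BU_finite K)]
    exact Set.nonempty_iff_ne_empty.1 ⟨1, one_mem_BU K⟩
  have hW0 : (0:ℝ) < W := by exact_mod_cast hW1
  set η : ℝ := c₀ / (4 * W * Cc) with hη
  have hη0 : 0 < η := by positivity
  obtain ⟨Z, hZ0, htail⟩ := tail h3 η hη0
  set M : ℕ := ⌈CI * Real.exp Z⌉₊ with hM
  have hM0 : (0:ℝ) < M := by
    have : 0 < CI * Real.exp Z := mul_pos hCI (Real.exp_pos _)
    exact_mod_cast Nat.ceil_pos.2 this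
  set c₁ : ℝ := min 1 (c₀ / (4 * W * Cc * Real.exp (2 + 2 * CN))) with hc₁
  have hc₁0 : 0 < c₁ := lt_min one_pos (by positivity)
  refine ⟨c₁, c₀ / (2 * W * M), Cc * CI / M, hc₁0, by positivity, by positivity, ?_⟩
  intro X D hX hD hr Q oo hQ hcard
  set E : ℝ := Real.exp (2 * X - tl D) with hE
  have hE0 : 0 < E := Real.exp_pos _
  set R : ℝ := Real.exp (X / Module.finrank ℚ K) with hR
  have hR0 : 0 < R := Real.exp_pos _
  have hlogR : (Module.finrank ℚ K : ℝ) * Real.log R = X := by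
    rw [hR, Real.log_exp]
    have : (0:ℝ) < Module.finrank ℚ K := by exact_mod_cast Module.finrank_pos
    field_simp
  -- the map to points and divisors
  set φ : K × K → K × Idl K := fun q => (q.1 / q.2, gcdI (oo q)) with hφ
  set H := Q.image φ with hH
  have hQH : Q.card ≤ W * H.card := by
    refine Finset.card_le_mul_card_image Q W fun h _ => ?_
    refine fiber hR0 _ oo (fun q hq => (hQ q (Finset.mem_filter.1 hq).1).1) h.1 h.2 ?_ ?_
    · intro q hq
      have := (Finset.mem_filter.1 hq).2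
      rw [← this]
    · intro q hq
      have := (Finset.mem_filter.1 hq).2
      rw [← this]
  -- properties of the elements of H
  have hprop : ∀ h ∈ H, Pt h.1 ∧ ht h.1 ≤ X - len h.2 ∧ (∀ w : InfinitePlace K, 0 ≤ lm (Sum.inl w) 0 h.1) ∧
      ∃ P : Fin 3 → Idl K, IsP ∅ h.1 P ∧ ∀ l, D l ≤ h.2 + P l := by
    intro h hh
    obtain ⟨q, hq, rfl⟩ := Finset.mem_image.1 hh
    obtain ⟨hp, hDo⟩ := hQ q hq
    refine ⟨hp.pt, ?_, hp.lm_nonneg, ?_⟩
    · have := hp.ht_le hR0
      rw [hlogR] at this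
      exact this
    · obtain ⟨P, hP⟩ := exists_isP ∅ hp.pt
      refine ⟨P, hP, fun l => ?_⟩
      rw [← hp.isP hP l]
      exact hDo l
  set good : K × Idl K → Prop := fun h => (∀ v ∈ TT D, h.2 v = 0) ∧ len h.2 ≤ Z with hgood
  set F : Finset K := (H.filter good).image Prod.fst with hF
  refine ⟨F, ?_, ?_⟩
  · intro x hx
    obtain ⟨h, hh, rfl⟩ := Finset.mem_image.1 hx
    obtain ⟨hh1, hh2⟩ := Finset.mem_filter.1 hh
    obtain ⟨hpt, hht, -, P, hP, hDP⟩ := hprop h hh1
    refine ⟨hpt, ?_, P, hP, fun l v => ?_⟩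
    · have := len_nonneg h.2
      linarith
    · have h4 := hDP l v
      rw [Finsupp.add_apply] at h4
      by_cases h5 : D l v = 0
      · omega
      · have h6 := hh2.1 v (mem_TT.2 ⟨l, h5⟩)
        omega
  -- the good part
  have hgoodcard : (H.filter good).card ≤ M * F.card := by
    refine Finset.card_le_mul_card_image (H.filter good) M fun x _ => ?_
    set A := (H.filter good).filter fun h => h.1 = x with hA
    have hinj : Set.InjOn (Prod.snd : K × Idl K → Idl K) A := by
      intro a ha b hb hab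
      have e1 := (Finset.mem_filter.1 ha).2
      have e2 := (Finset.mem_filter.1 hb).2
      exact Prod.ext (e1.trans e2.symm) hab
    rw [← Finset.card_image_of_injOn hinj]
    have h4 := hI Z (A.image Prod.snd) hZ0 ?_
    · have h5 : ((A.image Prod.snd).card : ℝ) ≤ M := h4.trans (Nat.le_ceil _)
      exact_mod_cast h5
    · intro a ha
      obtain ⟨h, hh, rfl⟩ := Finset.mem_image.1 ha
      exact (Finset.mem_filter.1 (Finset.mem_filter.1 hh).1).2.2
  -- the bad part
  set B := H.filter fun h => ¬ good h with hB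
  set G := B.image Prod.snd with hG
  have hGlen : ∀ g ∈ G, len g ≤ X := by
    intro g hg
    obtain ⟨h, hh, rfl⟩ := Finset.mem_image.1 hg
    obtain ⟨-, hht, -⟩ := hprop h (Finset.mem_filter.1 hh).1
    have := ht_nonneg h.1
    linarith
  have hBg : ∀ g ∈ G, ((B.filter fun h => h.2 = g).card : ℝ) ≤
      Cc * (E * Real.exp (-2 * len g + ∑ v ∈ TT D, (g v : ℝ) * Real.log (Nv v)) + 1) := by
    intro g hg
    set A := B.filter fun h => h.2 = g with hA
    have hinj : Set.InjOn (Prod.fst : K × Idl K → K) A := by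
      intro a ha b hb hab
      have e1 := (Finset.mem_filter.1 ha).2
      have e2 := (Finset.mem_filter.1 hb).2
      exact Prod.ext hab (e1.trans e2.symm)
    rw [← Finset.card_image_of_injOn hinj]
    have h4 := hcell (X - len g) (fun l => D l - g) (fun _ => 0) (fun _ => 0) (A.image Prod.fst)
      (by linarith [hGlen g hg]) (fun _ => le_rfl) ?_
    · refine h4.trans (mul_le_mul_of_nonneg_left (add_le_add ?_ le_rfl) hCc.le)
      rw [hE, ← Real.exp_add, Real.exp_le_exp]
      have := tl_sub hD g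
      simp only [Finset.sum_const_zero, sub_zero]
      linarith
    · intro x hx
      obtain ⟨h, hh, rfl⟩ := Finset.mem_image.1 hx
      obtain ⟨hh1, hh2⟩ := Finset.mem_filter.1 hh
      obtain ⟨hpt, hht, hlm, P, hP, hDP⟩ := hprop h (Finset.mem_filter.1 hh1).1
      refine ⟨hpt, ?_, hlm, P, hP, fun l => ?_⟩
      · rw [← hh2]
        exact hht
      · rw [← hh2]
        exact tsub_le_iff_left.2 (hDP l)
  have hBcard : (B.card : ℝ) ≤ Cc * (E * (c₁ * Real.exp (2 + 2 * CN) + η)) + Cc * (CI * Real.exp X) := by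
    have h4 : (B.card : ℝ) = ∑ g ∈ G, ((B.filter fun h => h.2 = g).card : ℝ) := by
      rw [← Nat.cast_sum]
      congr 1
      exact Finset.card_eq_sum_card_image Prod.snd B
    rw [h4]
    refine (Finset.sum_le_sum hBg).trans ?_
    rw [← Finset.mul_sum, Finset.sum_add_distrib, ← Finset.mul_sum, Finset.sum_const, nsmul_eq_mul,
      mul_one, mul_add]
    refine add_le_add (mul_le_mul_of_nonneg_left (mul_le_mul_of_nonneg_left ?_ hE0.le) hCc.le)
      (mul_le_mul_of_nonneg_left (hI X G hX hGlen) hCc.le)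
    refine (sum_bad hD hCN.le hN' (hr.trans (min_le_left _ _)) htail G ?_).trans ?_
    · intro g hg
      obtain ⟨h, hh, rfl⟩ := Finset.mem_image.1 hg
      exact (Finset.mem_filter.1 hh).2
    · have := mul_le_mul_of_nonneg_right hr (Real.exp_pos (2 + 2 * CN)).le
      linarith
  -- conclusion
  have hsplit : (H.card : ℝ) = (H.filter good).card + B.card := by
    have := Finset.card_filter_add_card_filter_not (s := H) good
    rw [← this]
    push_cast
    rfl
  have h5 : c₀ * E ≤ W * (H.card : ℝ) := by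
    refine hcard.trans ?_
    exact_mod_cast hQH
  have h6 : ((H.filter good).card : ℝ) ≤ M * F.card := by exact_mod_cast hgoodcard
  have h7 : Cc * (E * (c₁ * Real.exp (2 + 2 * CN) + η)) ≤ c₀ / (2 * W) * E := by
    have h8 : c₁ * Real.exp (2 + 2 * CN) ≤ c₀ / (4 * W * Cc) := by
      have := mul_le_mul_of_nonneg_right (min_le_right 1 (c₀ / (4 * W * Cc * Real.exp (2 + 2 * CN))))
        (Real.exp_pos (2 + 2 * CN)).le
      refine this.trans (le_of_eq ?_)
      have := Real.exp_pos (2 + 2 * CN)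
      field_simp
    have h9 : c₁ * Real.exp (2 + 2 * CN) + η ≤ c₀ / (2 * W * Cc) := by
      have : c₀ / (2 * W * Cc) = c₀ / (4 * W * Cc) + c₀ / (4 * W * Cc) := by
        field_simp
        ring
      rw [this]
      linarith
    calc Cc * (E * (c₁ * Real.exp (2 + 2 * CN) + η)) ≤ Cc * (E * (c₀ / (2 * W * Cc))) :=
          mul_le_mul_of_nonneg_left (mul_le_mul_of_nonneg_left h9 hE0.le) hCc.le
      _ = c₀ / (2 * W) * E := by field_simp
  have h10 : c₀ / W * E ≤ H.card := by
    rw [div_mul_eq_mul_div, div_le_iff₀ hW0]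
    linarith
  have h11 : c₀ / (2 * W) * E - Cc * CI * Real.exp X ≤ M * F.card := by
    have : c₀ / W * E = c₀ / (2 * W) * E + c₀ / (2 * W) * E := by
      field_simp
      ring
    linarith
  have h12 : c₀ / (2 * W * M) * E - Cc * CI / M * Real.exp X =
      (c₀ / (2 * W) * E - Cc * CI * Real.exp X) / M := by
    field_simp
  rw [h12, div_le_iff₀ hM0]
  linarith

end Pool.Agent.N403.RS
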