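import Pool.Agent.N906.RS.Stm
import Pool.Agent.H691R3.Rep
import Pool.Agent.Helper932.IdealCount

/-!
# Ideals as exponent functions: counting and Euler products (for RS/LOW)
-/

set_option autoImplicit false
set_option linter.unusedSectionVars false
set_option linter.unusedVariables false

namespace Pool.Agent.N403.RS

open NumberField IsDedekindDomain Finset Filter Topology Pool.Agent.H691R3 Pool.Agent.W223.AK Pool.Agent.N906.RS

variable {K : Type} [Field K] [NumberField K]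

/-! ### the ideal of an exponent function -/

/-- the ideal with given exponents -/
noncomputable def idl (a : Idl K) : Ideal (𝓞 K) := ∏ v ∈ a.support, v.asIdeal ^ a v

theorem idl_ne (a : Idl K) : idl a ≠ ⊥ := by
  unfold idl
  rw [← Ideal.zero_eq_bot]
  refine Finset.prod_ne_zero_iff.2 fun v _ => pow_ne_zero _ ?_
  rw [Ideal.zero_eq_bot]
  exact v.ne_bot

theorem absNorm_idl (a : Idl K) : (Ideal.absNorm (idl a) : ℝ) = Real.exp (len a) := by
  unfold idl len
  rw [map_prod, Nat.cast_prod, Real.exp_sum]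
  refine Finset.prod_congr rfl fun v _ => ?_
  rw [map_pow, Nat.cast_pow, Real.exp_nat_mul, Real.exp_log (Nv_pos v)]
  rfl

theorem idl_le (a : Idl K) (v : Pr K) : idl a ≤ v.asIdeal ^ a v := by
  by_cases hv : v ∈ a.support
  · exact Ideal.le_of_dvd (Finset.dvd_prod_of_mem _ hv)
  · rw [Finsupp.notMem_support_iff.mp hv, pow_zero, Ideal.one_eq_top]
    exact le_top

theorem fv_of_mem_idl {a : Idl K} {r : 𝓞 K} (h : r ∈ idl a) (v : Pr K) :
    fv v (r : K) ≤ (Nv v) ^ (-(a v : ℤ)) :=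
  (fv_le_pow_iff v r (a v)).2 (idl_le a v h)

theorem idl_coprime {a b : Idl K} (h : Cop a b) : IsCoprime (idl a) (idl b) := by
  unfold idl
  refine IsCoprime.prod_left fun v hv => IsCoprime.prod_right fun u hu => IsCoprime.pow ?_
  have hvu : v ≠ u := by
    rintro rfl
    rcases h v with h1 | h1
    · exact (Finsupp.mem_support_iff.mp hv) h1
    · exact (Finsupp.mem_support_iff.mp hu) h1
  rw [Ideal.isCoprime_iff_sup_eq]
  have hne : v.asIdeal ≠ u.asIdeal := fun h => hvu (HeightOneSpectrum.ext h)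
  exact Ideal.IsMaximal.coprime_of_ne v.isMaximal u.isMaximal hne

theorem le_of_idl_eq {a b : Idl K} (h : idl a = idl b) (v : Pr K) : a v ≤ b v := by
  classical
  by_contra hlt
  push Not at hlt
  have h1 : v.asIdeal ^ (b v + 1) ∣ idl b := by
    rw [← h]
    have : v.asIdeal ^ (b v + 1) ∣ v.asIdeal ^ a v := pow_dvd_pow _ hlt
    exact this.trans (Ideal.dvd_iff_le.2 (idl_le a v))
  have h2 : idl b = v.asIdeal ^ b v * ∏ u ∈ b.support.erase v, u.asIdeal ^ b u := by
    unfold idl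
    by_cases hv : v ∈ b.support
    · exact (Finset.mul_prod_erase _ _ hv).symm
    · rw [Finset.erase_eq_of_notMem hv, Finsupp.notMem_support_iff.mp hv, pow_zero, one_mul]
  rw [h2, pow_succ] at h1
  have hv0 : v.asIdeal ^ b v ≠ 0 := pow_ne_zero _ (by rw [Ideal.zero_eq_bot]; exact v.ne_bot)
  have h3 := (mul_dvd_mul_iff_left hv0).1 h1
  have hp : Prime v.asIdeal := v.prime
  obtain ⟨u, hu, h4⟩ := (Prime.dvd_finsetProd_iff hp _).1 h3
  have h5 := hp.dvd_of_dvd_pow h4
  have h6 : u.asIdeal ≤ v.asIdeal := Ideal.le_of_dvd h5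
  have h7 : u.asIdeal = v.asIdeal := u.isMaximal.eq_of_le v.isPrime.ne_top h6
  exact (Finset.mem_erase.1 hu).1 (HeightOneSpectrum.ext h7)

theorem idl_inj : Function.Injective (idl : Idl K → Ideal (𝓞 K)) := fun a b h =>
  Finsupp.ext fun v => le_antisymm (le_of_idl_eq h v) (le_of_idl_eq h.symm v)

variable (K) in
/-- the number of ideals of bounded norm -/
theorem cnt_idl : ∃ C : ℝ, 0 < C ∧ ∀ (X : ℝ) (s : Finset (Idl K)), 0 ≤ X → (∀ a ∈ s, len a ≤ X) →
    (s.card : ℝ) ≤ C * Real.exp X := by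
  classical
  obtain ⟨κ, hκ, h⟩ := Helper932.exists_tendsto K
  obtain ⟨B, hB⟩ := h.bddAbove_range
  have hB' : ∀ n : ℕ, 1 ≤ n → ((Helper932.idealsLe K n).card : ℝ) ≤ max B 1 * n := by
    intro n hn
    have h1 : ((Helper932.idealsLe K n).card : ℝ) / n ≤ B := hB ⟨n, rfl⟩
    have h2 : (0:ℝ) < n := by exact_mod_cast hn
    rw [div_le_iff₀ h2] at h1
    exact h1.trans (mul_le_mul_of_nonneg_right (le_max_left _ _) h2.le)
  refine ⟨max B 1, lt_max_of_lt_right one_pos, fun X s hX hs => ?_⟩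
  have h1 : (1:ℝ) ≤ Real.exp X := Real.one_le_exp hX
  have h2 : 1 ≤ ⌊Real.exp X⌋₊ := Nat.le_floor (by simpa using h1)
  have h3 : s.card ≤ (Helper932.idealsLe K ⌊Real.exp X⌋₊).card := by
    rw [← Finset.card_image_of_injective s idl_inj]
    refine Finset.card_le_card fun I hI => ?_
    obtain ⟨a, ha, rfl⟩ := Finset.mem_image.1 hI
    rw [Helper932.mem_idealsLe]
    refine ⟨idl_ne a, Nat.le_floor ?_⟩
    rw [absNorm_idl]
    exact Real.exp_le_exp.2 (hs a ha)
  calc (s.card : ℝ) ≤ ((Helper932.idealsLe K ⌊Real.exp X⌋₊).card : ℝ) := by exact_mod_cast h3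
    _ ≤ max B 1 * ⌊Real.exp X⌋₊ := hB' _ h2
    _ ≤ max B 1 * Real.exp X := mul_le_mul_of_nonneg_left (Nat.floor_le (Real.exp_pos _).le)
        (le_max_of_le_right zero_le_one)

/-! ### Euler products -/

theorem geom_le {y : ℝ} (h0 : 0 ≤ y) (h1 : y ≤ 1 / 2) (J : ℕ) :
    ∑ j ∈ range J, y ^ j ≤ Real.exp (2 * y) := by
  have h2 : (∑ j ∈ range J, y ^ j) * (1 - y) ≤ 1 := by
    have h3 := geom_sum_mul_neg y J
    rw [h3]
    have : 0 ≤ y ^ J := pow_nonneg h0 _
    linarith
  have h3 : 2 * y + 1 ≤ Real.exp (2 * y) := Real.add_one_le_exp _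
  have h4 : 1 ≤ Real.exp (2 * y) * (1 - y) := by nlinarith
  have h5 : 0 < 1 - y := by linarith
  exact le_of_mul_le_mul_right (h2.trans h4) h5

/-- sums of a completely multiplicative function -/
theorem euler (y : Pr K → ℝ) (h0 : ∀ v, 0 ≤ y v) (h1 : ∀ v, y v ≤ 1 / 2) (s : Finset (Pr K))
    (G : Finset (Idl K)) (hG : ∀ g ∈ G, g.support ⊆ s) :
    ∑ g ∈ G, ∏ v ∈ s, y v ^ g v ≤ Real.exp (2 * ∑ v ∈ s, y v) := by
  classical
  set J : ℕ := (∑ g ∈ G, ∑ v ∈ s, g v) + 1 with hJ
  set r : Idl K → (s → ℕ) := fun g v => g v with hr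
  have hinj : Set.InjOn r G := by
    intro g hg g' hg' h
    ext v
    by_cases hv : v ∈ s
    · exact congrFun h ⟨v, hv⟩
    · have e1 : g v = 0 := by
        by_contra h2
        exact hv (hG g hg (Finsupp.mem_support_iff.2 h2))
      have e2 : g' v = 0 := by
        by_contra h2
        exact hv (hG g' hg' (Finsupp.mem_support_iff.2 h2))
      rw [e1, e2]
  have hterm : ∀ g ∈ G, ∏ v ∈ s, y v ^ g v = ∏ v : s, y v ^ (r g v) := by
    intro g _
    rw [← Finset.prod_coe_sort s]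
  rw [Finset.sum_congr rfl hterm,
    ← Finset.sum_image (s := G) (g := r) (f := fun f : s → ℕ => ∏ v : s, y v ^ (f v)) hinj]
  have hsub : G.image r ⊆ Fintype.piFinset fun _ : s => range J := by
    intro f hf
    obtain ⟨g, hg, rfl⟩ := Finset.mem_image.1 hf
    rw [Fintype.mem_piFinset]
    intro v
    rw [Finset.mem_range, hJ, Nat.lt_succ_iff]
    calc g v ≤ ∑ v ∈ s, g v := Finset.single_le_sum (f := fun v => g v) (fun _ _ => Nat.zero_le _) v.2
      _ ≤ ∑ g ∈ G, ∑ v ∈ s, g v :=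
        Finset.single_le_sum (f := fun g : Idl K => ∑ v ∈ s, g v) (fun _ _ => Nat.zero_le _) hg
  calc ∑ f ∈ G.image r, ∏ v : s, y v ^ (f v)
      ≤ ∑ f ∈ Fintype.piFinset fun _ : s => range J, ∏ v : s, y v ^ (f v) :=
        Finset.sum_le_sum_of_subset_of_nonneg hsub fun f _ _ =>
          Finset.prod_nonneg fun v _ => pow_nonneg (h0 v) _
    _ = ∏ v : s, ∑ j ∈ range J, y v ^ j := (Finset.prod_univ_sum _ _).symm
    _ ≤ ∏ v : s, Real.exp (2 * y v) := Finset.prod_le_prod
        (fun v _ => Finset.sum_nonneg fun j _ => pow_nonneg (h0 v) _)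
        (fun v _ => geom_le (h0 v) (h1 v) J)
    _ = Real.exp (2 * ∑ v ∈ s, y v) := by
        rw [← Real.exp_sum, ← Finset.mul_sum, Finset.sum_coe_sort s y]

/-- the same with the condition that a prime of `T` divides -/
theorem euler_div (y : Pr K → ℝ) (h0 : ∀ v, 0 ≤ y v) (h1 : ∀ v, y v ≤ 1 / 2) (s T : Finset (Pr K))
    (hT : T ⊆ s) (G : Finset (Idl K)) (hG : ∀ g ∈ G, g.support ⊆ s) (hd : ∀ g ∈ G, ∃ v ∈ T, g v ≠ 0) :
    ∑ g ∈ G, ∏ v ∈ s, y v ^ g v ≤ (∑ v ∈ T, y v) * Real.exp (2 * ∑ v ∈ s, y v) := by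
  classical
  have hnn : ∀ g : Idl K, 0 ≤ ∏ v ∈ s, y v ^ g v := fun g =>
    Finset.prod_nonneg fun v _ => pow_nonneg (h0 v) _
  have hcov : ∑ g ∈ G, ∏ v ∈ s, y v ^ g v ≤
      ∑ u ∈ T, ∑ g ∈ G with g u ≠ 0, ∏ v ∈ s, y v ^ g v := by
    simp_rw [Finset.sum_filter]
    rw [Finset.sum_comm]
    refine Finset.sum_le_sum fun g hg => ?_
    obtain ⟨v, hv, hgv⟩ := hd g hg
    refine le_trans ?_ (Finset.single_le_sum (f := fun u => if g u ≠ 0 then ∏ v ∈ s, y v ^ g v else 0)
      (fun u _ => ?_) hv)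
    · simp only [if_pos hgv, le_refl]
    · split_ifs
      · exact hnn g
      · exact le_rfl
  refine hcov.trans ?_
  rw [Finset.sum_mul]
  refine Finset.sum_le_sum fun u hu => ?_
  have hus : u ∈ s := hT hu
  set G' := (G.filter fun g => g u ≠ 0).image fun g => g - Finsupp.single u 1 with hG'
  have hinj : Set.InjOn (fun g : Idl K => g - Finsupp.single u 1) (G.filter fun g => g u ≠ 0) := by
    intro g hg g' hg' h
    have hg1 : g u ≠ 0 := (Finset.mem_filter.1 hg).2
    have hg2 : g' u ≠ 0 := (Finset.mem_filter.1 hg').2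
    ext v
    have h2 : (g - Finsupp.single u 1 : Idl K) v = (g' - Finsupp.single u 1 : Idl K) v := by
      have := DFunLike.congr_fun h v
      exact this
    rw [Finsupp.tsub_apply, Finsupp.tsub_apply] at h2
    by_cases huv : u = v
    · subst huv
      rw [Finsupp.single_eq_same] at h2
      omega
    · rw [Finsupp.single_eq_of_ne (Ne.symm huv)] at h2
      simpa using h2
  have hterm : ∀ g ∈ G.filter fun g => g u ≠ 0,
      ∏ v ∈ s, y v ^ g v = y u * ∏ v ∈ s, y v ^ ((g - Finsupp.single u 1 : Idl K) v) := by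
    intro g hg
    have hg1 : g u ≠ 0 := (Finset.mem_filter.1 hg).2
    rw [← Finset.mul_prod_erase s _ hus, ← Finset.mul_prod_erase s _ hus, ← mul_assoc]
    congr 1
    · rw [Finsupp.tsub_apply, Finsupp.single_eq_same]
      conv_lhs => rw [← Nat.succ_pred_eq_of_ne_zero hg1]
      rw [pow_succ, mul_comm]
      rfl
    · refine Finset.prod_congr rfl fun v hv => ?_
      rw [Finsupp.tsub_apply, Finsupp.single_eq_of_ne (Finset.mem_erase.1 hv).1, Nat.sub_zero]
  rw [Finset.sum_congr rfl hterm, ← Finset.mul_sum]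
  refine mul_le_mul_of_nonneg_left ?_ (h0 u)
  rw [← Finset.sum_image (f := fun g : Idl K => ∏ v ∈ s, y v ^ g v)
    (g := fun g : Idl K => g - Finsupp.single u 1) hinj]
  refine euler y h0 h1 s _ ?_
  intro g hg
  obtain ⟨g', hg', rfl⟩ := Finset.mem_image.1 hg
  refine fun v hv => hG g' (Finset.mem_filter.1 hg').1 ?_
  rw [Finsupp.mem_support_iff, Finsupp.tsub_apply] at hv
  rw [Finsupp.mem_support_iff]
  omega

/-- the tail of the zeta function at `2` -/
theorem tail (hC : S_CNT K) (η : ℝ) (hη : 0 < η) : ∃ Z : ℝ, 0 ≤ Z ∧ ∀ G : Finset (Idl K),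
    (∀ g ∈ G, Z < len g) → ∑ g ∈ G, Real.exp (-2 * len g) ≤ η := by
  classical
  obtain ⟨C, hC0, -, hC2⟩ := hC
  have hexp : ∀ (g : Idl K) (s : Finset (Pr K)), g.support ⊆ s →
      Real.exp (-2 * len g) = ∏ v ∈ s, (((Nv v) ^ 2)⁻¹) ^ g v := by
    intro g s hs
    rw [len_eq_sum hs, Finset.mul_sum, Real.exp_sum]
    refine Finset.prod_congr rfl fun v _ => ?_
    rw [show -2 * ((g v : ℝ) * Real.log (Nv v)) = (g v : ℝ) * (-(2 * Real.log (Nv v))) by ring,
      Real.exp_nat_mul, Real.exp_neg, show (2 : ℝ) * Real.log (Nv v) = ((2 : ℕ) : ℝ) * Real.log (Nv v) by norm_num,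
      Real.exp_nat_mul, Real.exp_log (Nv_pos v)]
  have hsum : Summable fun g : Idl K => Real.exp (-2 * len g) := by
    refine summable_of_sum_le (c := Real.exp (2 * C)) (fun g => (Real.exp_pos _).le) fun G => ?_
    set s := G.biUnion fun g => g.support with hs
    have hG : ∀ g ∈ G, g.support ⊆ s := fun g hg => Finset.subset_biUnion_of_mem (fun g : Idl K => g.support) hg
    rw [Finset.sum_congr rfl fun g hg => hexp g s (hG g hg)]
    refine (euler (fun v => ((Nv v) ^ 2)⁻¹) (fun v => by have := Nv_pos v; positivity) (fun v => ?_) s G hG).trans ?_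
    · have h2 := two_le_Nv v
      rw [inv_le_comm₀ (by positivity) (by norm_num)]
      nlinarith
    · refine Real.exp_le_exp.2 (mul_le_mul_of_nonneg_left ?_ (by norm_num))
      have := hC2 1 s le_rfl fun v _ => Nv_one_lt v
      simpa using this
  obtain ⟨S₀, hS₀⟩ := summable_iff_vanishing_norm.1 hsum η hη
  refine ⟨∑ a ∈ S₀, len a, Finset.sum_nonneg fun a _ => len_nonneg a, fun G hG => ?_⟩
  have hdis : Disjoint G S₀ := by
    rw [Finset.disjoint_left]
    intro g hg hg'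
    have := Finset.single_le_sum (f := fun a : Idl K => len a) (fun a _ => len_nonneg a) hg'
    exact absurd (hG g hg) (not_lt.2 this)
  have := hS₀ G hdis
  rw [Real.norm_of_nonneg (Finset.sum_nonneg fun g _ => (Real.exp_pos _).le)] at this
  exact this.le

end Pool.Agent.N403.RS
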