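import Pool.Agent.N403.RS.LowA

/-!
# Points from pairs of integers (for RS/LOW)
-/

set_option autoImplicit false
set_option linter.unusedSectionVars false

namespace Pool.Agent.N403.RS

open NumberField IsDedekindDomain Finset Filter Topology Pool.Agent.H691R3 Pool.Agent.W223.AK Pool.Agent.N906.RS

variable {K : Type} [Field K] [NumberField K]

/-- `o` is the exponent function of the ideal of `r` -/
def Od (r : K) (o : Idl K) : Prop := ∀ v, fv v r = (Nv v) ^ (-(o v : ℤ))

theorem Nv_zpow_inj (v : Pr K) {m n : ℤ} (h : (Nv v) ^ m = (Nv v) ^ n) : m = n :=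
  zpow_right_injective₀ (Nv_pos v) (Nv_one_lt v).ne' h

theorem exists_od {r : 𝓞 K} (hr : r ≠ 0) : ∃ o : Idl K, Od (r : K) o := by
  classical
  have hr' : (r : K) ≠ 0 := RingOfIntegers.coe_ne_zero_iff.mpr hr
  have hex : ∀ v : Pr K, ∃ n : ℕ, fv v (r : K) = (Nv v) ^ (-(n : ℤ)) := by
    intro v
    obtain ⟨m, hm⟩ := fv_zpow v hr'
    have h1 := fv_int_le_one v r
    rw [hm, show (1 : ℝ) = (Nv v) ^ (0 : ℤ) by simp, zpow_le_zpow_iff_right₀ (Nv_one_lt v)] at h1
    refine ⟨(-m).toNat, ?_⟩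
    rw [hm, Int.toNat_of_nonneg (by omega), neg_neg]
  choose n hn using hex
  have hfin : (Function.support n).Finite := by
    refine (fv_support_finite hr').subset fun v hv => ?_
    intro h
    apply hv
    have h1 := hn v
    rw [h, show (1 : ℝ) = (Nv v) ^ (0 : ℤ) by simp] at h1
    have := Nv_zpow_inj v h1
    omega
  exact ⟨Finsupp.ofSupportFinite n hfin, hn⟩

theorem Od.le {r : 𝓞 K} {o a : Idl K} (ho : Od (r : K) o) (h : r ∈ idl a) : a ≤ o := by
  intro v
  have h1 := fv_of_mem_idl h v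
  rw [ho v, zpow_le_zpow_iff_right₀ (Nv_one_lt v)] at h1
  omega

/-- the data of a pair: `b ≠ 0`, ideals of `a, b, a + b` -/
structure Pair (R : ℝ) (a b : K) (o : Fin 3 → Idl K) : Prop where
  a0 : a ≠ 0
  b0 : b ≠ 0
  ab : a + b ≠ 0
  oa : Od a (o 0)
  ob : Od b (o 1)
  oab : Od (a + b) (o 2)
  ua : ∀ w : InfinitePlace K, w a ≤ R
  ub : ∀ w : InfinitePlace K, w b ≤ R
  lb : ∀ w : InfinitePlace K, R / 2 ≤ w b

/-- the greatest common divisor of the first two ideals -/
noncomputable def gcdI (o : Fin 3 → Idl K) : Idl K := o 0 ⊓ o 1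

section

variable {R : ℝ} {a b : K} {o : Fin 3 → Idl K}

theorem Pair.pt (h : Pair R a b o) : Pt (a / b) := by
  refine ⟨div_ne_zero h.a0 h.b0, ?_⟩
  have : a / b + 1 = (a + b) / b := by
    have := h.b0
    field_simp
  rw [this]
  exact div_ne_zero h.ab h.b0

theorem Pair.max_eq (h : Pair R a b o) (v : Pr K) :
    max (fv v a) (fv v b) = (Nv v) ^ (-(gcdI o v : ℤ)) := by
  rw [h.oa v, h.ob v]
  have hm := (zpow_right_strictMono₀ (Nv_one_lt v)).monotone
  rw [← hm.map_max]
  congr 1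
  unfold gcdI
  rw [Finsupp.inf_apply]
  push_cast
  rw [max_neg_neg]

theorem Pair.max_div (h : Pair R a b o) (v : Pr K) :
    max (fv v (a / b)) 1 = (Nv v) ^ (-(gcdI o v : ℤ)) / fv v b := by
  have hb := (fv v).pos h.b0
  rw [← h.max_eq v, map_div₀, ← max_div_div_right hb.le, div_self hb.ne']

theorem Pair.isP (h : Pair R a b o) {P : Fin 3 → Idl K} (hP : IsP ∅ (a / b) P) (l : Fin 3) :
    o l = gcdI o + P l := by
  ext v
  have h1 := hP.val l v (by simp)
  rw [h.max_div v] at h1
  have hb := (fv v).pos h.b0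
  have hb0 := h.b0
  have key : ∀ r : K, L l (a / b) = r / b → Od r (o l) → (o l) v = (gcdI o + P l) v := by
    intro r hr hor
    rw [hr, map_div₀, div_mul_eq_mul_div, div_left_inj' hb.ne', hor v,
      ← zpow_add₀ (Nv_pos v).ne'] at h1
    have := Nv_zpow_inj v h1
    rw [Finsupp.add_apply]
    omega
  fin_cases l
  · exact key a rfl h.oa
  · refine key b ?_ h.ob
    show (1 : K) = b / b
    rw [div_self hb0]
  · refine key (a + b) ?_ h.oab
    show a / b + 1 = (a + b) / b
    field_simp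

theorem Pair.ht_le (h : Pair R a b o) (hR : 0 < R) :
    ht (a / b) ≤ (Module.finrank ℚ K : ℝ) * Real.log R - len (gcdI o) := by
  classical
  have hb := h.b0
  have hab : a / b ≠ 0 := h.pt.1
  set s : Finset (Pr K) := (fv_support_finite hb).toFinset ∪ (fv_support_finite hab).toFinset ∪
    (gcdI o).support with hs
  have hd : Disjoint (∅ : Finset (Pr K)) s := Finset.disjoint_empty_left s
  have h1 : ∀ v, v ∉ (∅ : Finset (Pr K)) → v ∉ s → fv v b = 1 := by
    intro v _ hv
    by_contra hcon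
    apply hv
    rw [hs, Finset.mem_union, Finset.mem_union]
    left; left
    rw [Set.Finite.mem_toFinset]
    exact hcon
  have h2 : ∀ v, v ∉ (∅ : Finset (Pr K)) → v ∉ s → fv v (a / b) ≤ 1 := by
    intro v _ hv
    by_contra hcon
    apply hv
    rw [hs, Finset.mem_union, Finset.mem_union]
    left; right
    rw [Set.Finite.mem_toFinset]
    exact fun h => hcon h.le
  have h3 := product_formula ∅ hb s h1 hd
  have h4 := ht_eq ∅ (a / b) s h2 hd
  have hsupp : (gcdI o).support ⊆ s := Finset.subset_union_right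
  have h5 : ∑ v ∈ s, Real.log (max (fv v (a / b)) 1) = -len (gcdI o) - ∑ v ∈ s, Real.log (fv v b) := by
    rw [len_eq_sum hsupp, ← Finset.sum_neg_distrib, ← Finset.sum_sub_distrib]
    refine Finset.sum_congr rfl fun v _ => ?_
    rw [h.max_div v, Real.log_div (zpow_pos (Nv_pos v) _).ne' ((fv v).pos hb).ne', Real.log_zpow]
    push_cast
    ring
  have h6 : ∑ v ∈ Spl (∅ : Finset (Pr K)), mt v * Real.log (max (av v (a / b)) 1) ≤
      (Module.finrank ℚ K : ℝ) * Real.log R - ∑ v ∈ Spl (∅ : Finset (Pr K)), mt v * Real.log (av v b) := by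
    rw [sum_Spl, sum_Spl]
    simp only [mt_inl, av_inl, Finset.sum_empty, add_zero]
    rw [← InfinitePlace.sum_mult_eq, Nat.cast_sum, Finset.sum_mul, ← Finset.sum_sub_distrib]
    refine Finset.sum_le_sum fun w _ => ?_
    rw [← mul_sub]
    refine mul_le_mul_of_nonneg_left ?_ (Nat.cast_nonneg _)
    have hwb : 0 < w b := w.1.pos hb
    have h7 : max (w (a / b)) 1 ≤ R / w b := by
      rw [map_div₀]
      refine max_le (div_le_div_of_nonneg_right (h.ua w) hwb.le) ?_
      rw [one_le_div hwb]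
      exact h.ub w
    rw [← Real.log_div hR.ne' hwb.ne']
    exact Real.log_le_log (lt_max_of_lt_right one_pos) h7
  rw [h4, h5]
  linarith

theorem Pair.lm_nonneg (h : Pair R a b o) (w : InfinitePlace K) : 0 ≤ lm (Sum.inl w) 0 (a / b) := by
  unfold lm
  refine mul_nonneg (mt_pos _).le (Real.log_nonneg ?_)
  rw [L_zero, one_le_div ((av _).pos h.pt.1)]
  exact le_max_left _ _

end

variable (K) in
/-- units with bounded conjugates -/
def BU : Set K := {ε : K | (∀ v : Pr K, fv v ε = 1) ∧ ∀ w : InfinitePlace K, w ε ≤ 2}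

theorem mem_int {x : K} (h : ∀ v : Pr K, fv v x ≤ 1) : IsIntegral ℤ x := by
  by_cases hx : x = 0
  · rw [hx]; exact isIntegral_zero
  have h1 : ∀ v : Pr K, v.valuation K x ≤ 1 := by
    intro v
    have h2 := h v
    have h3 : fv v x = _ := NumberField.FinitePlace.norm_embedding' (v := v) (x := x)
    rw [h3] at h2
    have h5 : (1 : NNReal) < (Ideal.absNorm v.asIdeal : NNReal) := by
      have := Nv_one_lt v
      unfold Nv at this
      exact_mod_cast this
    exact (WithZeroMulInt.toNNReal_le_one_iff h5).1 (by exact_mod_cast h2)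
  obtain ⟨y, hy⟩ := HeightOneSpectrum.mem_integers_of_valuation_le_one K x h1
  rw [← hy]
  exact y.isIntegral_coe

variable (K) in
theorem BU_finite : (BU K).Finite := by
  refine (NumberField.Embeddings.finite_of_norm_le K ℂ (2 : ℝ)).subset ?_
  intro x hx
  refine ⟨mem_int fun v => (hx.1 v).le, fun φ => ?_⟩
  have := hx.2 (InfinitePlace.mk φ)
  rwa [InfinitePlace.apply] at this

variable (K) in
theorem one_mem_BU : (1 : K) ∈ BU K := by
  refine ⟨fun v => map_one _, fun w => ?_⟩
  rw [map_one]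
  norm_num

theorem fiber {R : ℝ} (hR : 0 < R) (Q : Finset (K × K)) (oo : K × K → Fin 3 → Idl K)
    (hQ : ∀ q ∈ Q, Pair R q.1 q.2 (oo q)) (x : K) (g : Idl K) (hx : ∀ q ∈ Q, q.1 / q.2 = x)
    (hg : ∀ q ∈ Q, gcdI (oo q) = g) : Q.card ≤ (BU K).ncard := by
  classical
  rcases Q.eq_empty_or_nonempty with rfl | ⟨q₀, hq₀⟩
  · simp
  have hp₀ := hQ q₀ hq₀
  have hinj : Set.InjOn (fun q : K × K => q.2 / q₀.2) (Q : Set (K × K)) := by
    intro q hq q' hq' h
    have h0 := hp₀.b0
    have h1 : q.2 = q'.2 := by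
      have h2 : q.2 / q₀.2 = q'.2 / q₀.2 := h
      rwa [div_left_inj' h0] at h2
    have h2 : q.1 = q'.1 := by
      have e1 := hx q hq
      have e2 := hx q' hq'
      rw [div_eq_iff (hQ q hq).b0] at e1
      rw [div_eq_iff (hQ q' hq').b0] at e2
      rw [e1, e2, h1]
    exact Prod.ext h2 h1
  rw [← Set.ncard_coe_finset Q, ← hinj.ncard_image]
  refine Set.ncard_le_ncard ?_ (BU_finite K)
  rintro _ ⟨q, hq, rfl⟩
  have hp := hQ q hq
  refine ⟨fun v => ?_, fun w => ?_⟩
  · have h1 := hp.max_div v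
    have h2 := hp₀.max_div v
    rw [hx q hq, hg q hq] at h1
    rw [hx q₀ hq₀, hg q₀ hq₀, h1] at h2
    have hb := (fv v).pos hp.b0
    have hb₀ := (fv v).pos hp₀.b0
    have hz := zpow_pos (Nv_pos v) (-(g v : ℤ))
    rw [div_eq_div_iff hb.ne' hb₀.ne'] at h2
    have h3 := mul_left_cancel₀ hz.ne' h2
    simp only [map_div₀]
    rw [h3, div_self hb.ne']
  · simp only [map_div₀]
    have h0 : 0 < w q₀.2 := w.1.pos hp₀.b0
    have h1 := hp.ub w
    have h2 := hp₀.lb w
    refine (div_le_iff₀ h0).2 ?_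
    linarith

end Pool.Agent.N403.RS
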